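import Pool.Agent.R715.HeckeWord

set_option autoImplicit false

/-!
# The element `X^μ_N` is central in `e_μ H(S_n) e_μ`

`H(S_n)` is the algebra over `K = ℂ(q)` presented by the generators `T_1, …, T_{n-1}` and the
braid and quadratic relations.  The proof: let `D` be the set of minimal length representatives
of the cosets `σ (S_{N+1} × S_{n-N-1})`.  The relative norm `Z = Σ_{d ∈ D} T_d A T_{d⁻¹}` of the
antisymmetriser `A = A_{N+1}` is central in `H(S_n)`.  For `d ∈ D` either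
`e T_d A = 0 = A T_{d⁻¹} e`, or `d ∈ S_μ γ` and `e T_d A = q^k e T_γ A`,
`A T_{d⁻¹} e = q^k A T_{γ⁻¹} e` with `k = ℓ(d) - ℓ(γ)`; moreover `A T_y e = 0` whenever
`ℓ(y) < ℓ(γ)`, so that `A T_γ^{-1} e = A T_{γ⁻¹} e`.  Hence `e Z e = c X` with
`c = Σ q^{2k} ≠ 0`.
-/

namespace Pool.Agent.Results.MP_613bd6_al.Central

open Equiv Finset

/-- the field `ℂ(q)` -/
abbrev K := RatFunc ℂ

/-- the indeterminate `q` -/
noncomputable def q : K := RatFunc.X

/-- the index set `{1, …, n - 1}` of the generators -/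
abbrev Idx (n : ℕ) := {i : ℕ // 1 ≤ i ∧ i < n}

/-- the free generator with index `i` -/
noncomputable def fr {n : ℕ} (i : Idx n) : FreeAlgebra K (Idx n) := FreeAlgebra.ι K i

/-- the defining relations of `H(S_n)` -/
inductive Rel (n : ℕ) : FreeAlgebra K (Idx n) → FreeAlgebra K (Idx n) → Prop
  | braid (i j : Idx n) : i.val + 1 = j.val → Rel n (fr i * fr j * fr i) (fr j * fr i * fr j)
  | comm (i j : Idx n) : i.val + 1 < j.val → Rel n (fr i * fr j) (fr j * fr i)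
  | quad (i : Idx n) : Rel n
      ((fr i - algebraMap K (FreeAlgebra K (Idx n)) q) *
        (fr i + algebraMap K (FreeAlgebra K (Idx n)) q⁻¹)) 0

/-- the Iwahori-Hecke algebra `H(S_n)` over `ℂ(q)`, by generators and relations -/
abbrev Hecke (n : ℕ) := RingQuot (Rel n)

/-- the generator `T_i` of `H(S_n)`, `1 ≤ i ≤ n - 1` (and `0` for other `i`) -/
noncomputable def gen (n i : ℕ) : Hecke n :=
  if h : 1 ≤ i ∧ i < n then RingQuot.mkAlgHom K (Rel n) (fr ⟨i, h⟩) else 0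

/-- the simple transposition `s_i = (i, i + 1)`, `1 ≤ i ≤ n - 1`, of the letters `1, …, n`
represented by the elements `0, …, n - 1` of `Fin n` (and `1` for other `i`) -/
def s (n i : ℕ) : Perm (Fin n) :=
  if h : 1 ≤ i ∧ i < n then swap ⟨i - 1, by omega⟩ ⟨i, h.2⟩ else 1

/-- `s_{i_1} ⋯ s_{i_k} = σ` for the word `w = i_1 … i_k` in `1, …, n - 1` -/
def Word {n : ℕ} (w : List ℕ) (σ : Perm (Fin n)) : Prop :=
  (∀ i ∈ w, 1 ≤ i ∧ i < n) ∧ (w.map (s n)).prod = σ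

/-- the Coxeter length: the smallest length of a word for `σ` -/
noncomputable def ell {n : ℕ} (σ : Perm (Fin n)) : ℕ := sInf {k | ∃ w, Word w σ ∧ w.length = k}

/-- `w` is a reduced word for `σ` -/
def Reduced {n : ℕ} (w : List ℕ) (σ : Perm (Fin n)) : Prop := Word w σ ∧ w.length = ell σ

/-- `T_{i_1} ⋯ T_{i_k}` for the word `w = i_1 … i_k` -/
noncomputable def genProd (n : ℕ) (w : List ℕ) : Hecke n := (w.map (gen n)).prod

/-- `T_σ`: the product of the generators along a reduced word of `σ` -/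
noncomputable def TT {n : ℕ} (σ : Perm (Fin n)) : Hecke n :=
  genProd n (Classical.epsilon (fun w => Reduced w σ))

/-- `n = μ_1 + ⋯ + μ_{N+1}` -/
def nn {N : ℕ} (μ : Fin (N + 1) → ℕ) : ℕ := ∑ j, μ j

/-- `m_k = μ_1 + ⋯ + μ_k` (the entries of `μ` are indexed by `0, …, N`) -/
def mm {N : ℕ} (μ : Fin (N + 1) → ℕ) (k : ℕ) : ℕ :=
  ∑ j ∈ univ.filter (fun j : Fin (N + 1) => j.val < k), μ j

/-- `J = {1, …, n - 1} ∖ {m_1, …, m_N}` -/
def J {N : ℕ} (μ : Fin (N + 1) → ℕ) : Set ℕ :=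
  {i | 1 ≤ i ∧ i < nn μ ∧ ∀ k, 1 ≤ k → k ≤ N → i ≠ mm μ k}

/-- `S_μ`, generated by `s_i`, `i ∈ J` -/
def Smu {N : ℕ} (μ : Fin (N + 1) → ℕ) : Subgroup (Perm (Fin (nn μ))) :=
  Subgroup.closure (s (nn μ) '' J μ)

/-- `S_{N+1}` inside `S_n`, generated by `s_1, …, s_N` -/
def Sfirst (n N : ℕ) : Subgroup (Perm (Fin n)) :=
  Subgroup.closure (s n '' {i | 1 ≤ i ∧ i ≤ N})

open Classical in
/-- the idempotent `e_μ` -/
noncomputable def e {N : ℕ} (μ : Fin (N + 1) → ℕ) : Hecke (nn μ) :=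
  (∑ σ ∈ univ.filter (fun σ => σ ∈ Smu μ), q ^ (2 * ell σ))⁻¹ •
    ∑ σ ∈ univ.filter (fun σ => σ ∈ Smu μ), q ^ ell σ • TT σ

open Classical in
/-- the unnormalised `q`-antisymmetriser `A_{N+1}` in `H(S_n)`, with `L = N (N + 1) / 2` -/
noncomputable def A (n N : ℕ) : Hecke n :=
  ∑ σ ∈ univ.filter (fun σ => σ ∈ Sfirst n N),
    ((-1) ^ ell σ * q ^ (((N * (N + 1) / 2 : ℕ) : ℤ) - (ell σ : ℤ))) • TT σ

/-- `T_{γ_μ} = ∏_{k=1}^{N} (T_{m_k} T_{m_k - 1} ⋯ T_{k+1})` -/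
noncomputable def Tgamma {N : ℕ} (μ : Fin (N + 1) → ℕ) : Hecke (nn μ) :=
  ((List.range' 1 N).map (fun k =>
    ((List.range (mm μ k - k)).map (fun r => gen (nn μ) (mm μ k - r))).prod)).prod

/-- `X^μ_N = e_μ T_{γ_μ} A_{N+1} T_{γ_μ}^{-1} e_μ` -/
noncomputable def X {N : ℕ} (μ : Fin (N + 1) → ℕ) : Hecke (nn μ) :=
  e μ * Tgamma μ * A (nn μ) N * Ring.inverse (Tgamma μ) * e μ

/-! ### auxiliary facts -/

open Pool.Agent.R715.HeckeA in
theorem ell_eq {n : ℕ} (σ : Perm (Fin n)) : ell σ = len σ := (isLeast_len σ).csInf_eq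

open Pool.Agent.R715.HeckeA in
theorem reduced_iff {n : ℕ} (w : List ℕ) (σ : Perm (Fin n)) : Reduced w σ ↔ Red n w σ := by
  unfold Reduced Red
  rw [ell_eq]
  rfl

theorem gen_of {n i : ℕ} (h : 1 ≤ i ∧ i < n) :
    gen n i = RingQuot.mkAlgHom K (Rel n) (fr ⟨i, h⟩) := dif_pos h

theorem gen_braid {n i : ℕ} (hi : 1 ≤ i) (hi2 : i + 1 < n) :
    gen n i * gen n (i + 1) * gen n i = gen n (i + 1) * gen n i * gen n (i + 1) := by
  rw [gen_of ⟨hi, by omega⟩, gen_of ⟨by omega, hi2⟩]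
  have := RingQuot.mkAlgHom_rel K (Rel.braid (n := n) ⟨i, hi, by omega⟩ ⟨i + 1, by omega, hi2⟩ rfl)
  simpa only [map_mul] using this

theorem gen_comm {n i j : ℕ} (hi : 1 ≤ i) (hij : i + 1 < j) (hj : j < n) :
    gen n i * gen n j = gen n j * gen n i := by
  rw [gen_of ⟨hi, by omega⟩, gen_of ⟨by omega, hj⟩]
  have := RingQuot.mkAlgHom_rel K (Rel.comm (n := n) ⟨i, hi, by omega⟩ ⟨j, by omega, hj⟩ hij)
  simpa only [map_mul] using this

theorem gen_quad {n i : ℕ} (hi : 1 ≤ i) (hi2 : i < n) :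
    (gen n i - algebraMap K (Hecke n) q) * (gen n i + algebraMap K (Hecke n) q⁻¹) = 0 := by
  rw [gen_of ⟨hi, hi2⟩]
  have := RingQuot.mkAlgHom_rel K (Rel.quad (n := n) ⟨i, hi, hi2⟩)
  rw [map_mul, map_sub, map_add, map_zero, AlgHom.commutes, AlgHom.commutes] at this
  exact this

open Pool.Agent.R715.HeckeA in
theorem TT_eq {n : ℕ} (σ : Perm (Fin n)) (w : List ℕ) (hw : Red n w σ) :
    TT σ = (w.map (gen n)).prod := by
  unfold TT genProd
  have h1 : ∃ w, Reduced w σ := by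
    obtain ⟨w, hw⟩ := exists_red σ
    exact ⟨w, (reduced_iff w σ).2 hw⟩
  have h2 := Classical.epsilon_spec h1
  rw [reduced_iff] at h2
  exact matsumoto (f := gen n) (fun i h1 h2 => gen_braid h1 h2)
    (fun i j h1 h2 h3 => gen_comm h1 h2 h3) (len σ) σ _ w rfl h2 hw

open Pool.Agent.R715.HeckeA in
theorem rules (n : ℕ) : Rules q (TT : Perm (Fin n) → Hecke n) :=
  rules_of_words (f := gen n) (fun i h1 h2 => gen_quad h1 h2) TT_eq

open Pool.Agent.R715.HeckeA in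
theorem TT_adj {n i : ℕ} (hi : 1 ≤ i ∧ i < n) : TT (adj n i) = gen n i := by
  rw [TT_eq _ _ (adj_red hi)]
  simp

theorem adjoin_gen (n : ℕ) :
    Algebra.adjoin K {x : Hecke n | ∃ i, 1 ≤ i ∧ i < n ∧ gen n i = x} = ⊤ := by
  have h1 : (⊤ : Subalgebra K (Hecke n)) =
      (⊤ : Subalgebra K (FreeAlgebra K (Idx n))).map (RingQuot.mkAlgHom K (Rel n)) := by
    rw [Algebra.map_top]
    exact ((AlgHom.range_eq_top _).2 (RingQuot.mkAlgHom_surjective K (Rel n))).symm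
  rw [h1, ← FreeAlgebra.adjoin_range_ι, AlgHom.map_adjoin]
  congr 1
  ext x
  simp only [Set.mem_setOf_eq, Set.mem_image, Set.mem_range]
  constructor
  · rintro ⟨i, h1, h2, rfl⟩
    exact ⟨_, ⟨⟨i, h1, h2⟩, rfl⟩, (gen_of ⟨h1, h2⟩).symm⟩
  · rintro ⟨_, ⟨⟨i, h1, h2⟩, rfl⟩, rfl⟩
    exact ⟨i, h1, h2, gen_of ⟨h1, h2⟩⟩

theorem q_ne : q ≠ 0 := RatFunc.X_ne_zero

theorem sum_pow_ne {α : Type*} (F : Finset α) (k : α → ℕ) (hF : F.Nonempty) :
    ∑ d ∈ F, q ^ k d ≠ 0 := by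
  have h1 : ∑ d ∈ F, q ^ k d =
      algebraMap (Polynomial ℂ) (RatFunc ℂ) (∑ d ∈ F, Polynomial.X ^ k d) := by
    rw [map_sum]
    refine sum_congr rfl ?_
    intro d _
    rw [map_pow, RatFunc.algebraMap_X]
    rfl
  rw [h1]
  intro h2
  have h3 : (∑ d ∈ F, Polynomial.X ^ k d : Polynomial ℂ) = 0 := by
    apply IsFractionRing.injective (Polynomial ℂ) (RatFunc ℂ)
    rw [h2, map_zero]
  have h4 := congrArg (Polynomial.eval 1) h3
  rw [Polynomial.eval_finset_sum] at h4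
  simp only [Polynomial.eval_pow, Polynomial.eval_X, one_pow, sum_const, nsmul_eq_mul, mul_one,
    Polynomial.eval_zero, Nat.cast_eq_zero, card_eq_zero] at h4
  exact hF.ne_empty h4

theorem q_add_ne : q + q⁻¹ ≠ 0 := by
  intro h
  have h1 : q ^ 0 + q ^ 2 ≠ 0 := by
    have := sum_pow_ne (univ : Finset (Fin 2)) (fun i => 2 * i.val) ⟨0, mem_univ _⟩
    simpa [Fin.sum_univ_two] using this
  apply h1
  have h2 : q ^ 0 + q ^ 2 = q * (q + q⁻¹) := by
    have := q_ne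
    field_simp
    ring
  rw [h2, h, mul_zero]

open Pool.Agent.R715.HeckeA in
theorem good {N : ℕ} (μ : Fin (N + 1) → ℕ) (hμ : ∀ j, 0 < μ j) : Good (nn μ) N (mm μ) := by
  have hstep : ∀ k (hk : k < N + 1), mm μ (k + 1) = mm μ k + μ ⟨k, hk⟩ := by
    intro k hk
    unfold mm
    have : univ.filter (fun j : Fin (N + 1) => j.val < k + 1) =
        insert ⟨k, hk⟩ (univ.filter (fun j : Fin (N + 1) => j.val < k)) := by
      ext j
      simp only [mem_filter, mem_univ, true_and, mem_insert, Fin.ext_iff]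
      omega
    rw [this, sum_insert, add_comm]
    simp
  refine ⟨?_, ?_, ?_⟩
  · unfold mm
    simp
  · intro k hk
    have h1 := hstep k (by omega)
    have := hμ ⟨k, by omega⟩
    omega
  · have h1 := hstep N (by omega)
    have h2 := hμ ⟨N, by omega⟩
    have h3 : mm μ (N + 1) = nn μ := by
      unfold mm nn
      congr 1
      ext j
      have := j.2
      simp only [mem_filter, mem_univ, true_and, iff_true]
      exact this
    omega

open Pool.Agent.R715.HeckeA Classical in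
theorem e_eq {N : ℕ} (μ : Fin (N + 1) → ℕ) : e μ =
    (∑ σ ∈ univ.filter (fun σ => σ ∈ Smu μ), q ^ (2 * len σ))⁻¹ • wsum TT q (Smu μ) := by
  unfold e wsum
  simp only [ell_eq]

open Pool.Agent.R715.HeckeA in
theorem A_eq (n N : ℕ) : A n N =
    q ^ (((N * (N + 1) / 2 : ℕ) : ℤ)) • wsum TT (-q⁻¹) (Sfirst n N) := by
  unfold A wsum
  rw [smul_sum]
  refine sum_congr rfl ?_
  intro σ _
  rw [smul_smul, ell_eq, zpow_sub₀ q_ne, zpow_natCast, zpow_natCast, neg_pow q⁻¹, inv_pow]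
  congr 1
  ring

open Pool.Agent.R715.HeckeA Classical in
theorem setup {N : ℕ} (μ : Fin (N + 1) → ℕ) (hμ : ∀ j, 0 < μ j) :
    Setup q (TT : Perm (Fin (nn μ)) → Hecke (nn μ)) N (mm μ) (e μ) (A (nn μ) N) := by
  have hr := rules (nn μ)
  have g := good μ hμ
  have hNn := g.Nlt
  have hω1 : q * q = 1 + (q - q⁻¹) * q := by
    have := q_ne
    field_simp
    ring
  have hω2 : (-q⁻¹) * (-q⁻¹) = 1 + (q - q⁻¹) * (-q⁻¹) := by
    have := q_ne
    field_simp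
    ring
  have hmem : ∀ i, InJ (nn μ) N (mm μ) i → adj (nn μ) i ∈ Smu μ := fun i hi =>
    Subgroup.subset_closure ⟨i, hi, rfl⟩
  have hel : ∀ i, InJ (nn μ) N (mm μ) i → TT (adj (nn μ) i) * e μ = q • e μ := by
    intro i hi
    rw [e_eq, mul_smul_comm, hr.mul_wsum q_ne hω1 ⟨hi.1, hi.2.1⟩ (hmem i hi), smul_comm]
  refine ⟨hel, ?_, ?_, ?_, ?_, ?_⟩
  · intro i hi
    rw [e_eq, smul_mul_assoc, hr.wsum_mul q_ne hω1 ⟨hi.1, hi.2.1⟩ (hmem i hi), smul_comm]
  · have h1 := hr.wsum_mul_of q_ne (G := J μ) (fun i hi => ⟨hi.1, hi.2.1⟩) (x := e μ)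
      (fun i hi => hel i hi)
    have h2 : wsum TT q (Smu μ) * e μ =
        (∑ σ ∈ univ.filter (fun σ => σ ∈ Smu μ), q ^ (2 * len σ)) • e μ := by
      exact h1
    have h3 : (∑ σ ∈ univ.filter (fun σ => σ ∈ Smu μ), q ^ (2 * len σ)) ≠ 0 := by
      apply sum_pow_ne
      exact ⟨1, by simp only [mem_filter, mem_univ, true_and]; exact (Smu μ).one_mem⟩
    have h4 := e_eq μ
    calc e μ * e μ = ((∑ σ ∈ univ.filter (fun σ => σ ∈ Smu μ), q ^ (2 * len σ))⁻¹ •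
          wsum TT q (Smu μ)) * e μ := by rw [← h4]
      _ = e μ := by rw [smul_mul_assoc, h2, smul_smul, inv_mul_cancel₀ h3, one_smul]
  · intro j h1 h2
    have h3 : adj (nn μ) j ∈ Sfirst (nn μ) N := Subgroup.subset_closure ⟨j, ⟨h1, h2⟩, rfl⟩
    rw [A_eq, mul_smul_comm, hr.mul_wsum q_ne hω2 ⟨h1, by omega⟩ h3, smul_comm]
  · intro j h1 h2
    have h3 : adj (nn μ) j ∈ Sfirst (nn μ) N := Subgroup.subset_closure ⟨j, ⟨h1, h2⟩, rfl⟩
    rw [A_eq, smul_mul_assoc, hr.wsum_mul q_ne hω2 ⟨h1, by omega⟩ h3, smul_comm]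
  · intro j h1 h2
    rw [A_eq, mul_smul_comm, smul_mul_assoc]
    congr 1
    exact hr.wsum_comm h1 h2

/-- **Centrality of `X^μ_N`.**  Let `N ≥ 1`, let `μ = (μ_1, …, μ_{N+1})` have positive entries,
let `n = Σ μ_j` and let `H(S_n)` be the Iwahori-Hecke algebra over `ℂ(q)`, presented by the
generators `T_i` and the braid and quadratic relations.  Then `T_σ` is the product of the
generators along any reduced word of `σ`, `T_{γ_μ}` is invertible, `e_μ` is an idempotent with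
`T_i e_μ = q e_μ = e_μ T_i` for `i ∈ J`, and `X^μ_N h = h X^μ_N` for all
`h = e_μ x e_μ ∈ e_μ H(S_n) e_μ`. -/
theorem result (N : ℕ) (_hN : 1 ≤ N) (μ : Fin (N + 1) → ℕ) (hμ : ∀ j, 0 < μ j) :
    (∀ (σ : Perm (Fin (nn μ))) (w : List ℕ), Reduced w σ → TT σ = genProd (nn μ) w) ∧
    IsUnit (Tgamma μ) ∧
    (e μ * e μ = e μ ∧ ∀ i ∈ J μ, gen (nn μ) i * e μ = q • e μ ∧ e μ * gen (nn μ) i = q • e μ) ∧
    ∀ x : Hecke (nn μ), X μ * (e μ * x * e μ) = (e μ * x * e μ) * X μ := by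
  have hr := rules (nn μ)
  have g := good μ hμ
  have st := setup μ hμ
  obtain ⟨γ, hγ1, hγ2, hγ3⟩ := hr.exists_gam g
  have hT : Tgamma μ = TT γ := by
    rw [← hγ3]
    unfold Tgamma Pool.Agent.R715.HeckeA.gamProd
    congr 1
    refine List.map_congr_left ?_
    intro k hk
    rw [List.mem_range'] at hk
    obtain ⟨i, hi, rfl⟩ := hk
    congr 1
    refine List.map_congr_left ?_
    intro r hr
    rw [List.mem_range] at hr
    have h1 := g.mono (i := 1 + 1 * i) (j := N) (by omega) (le_refl N)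
    have h2 := g.last
    exact (TT_adj ⟨by omega, by omega⟩).symm
  obtain ⟨u, hu1, hu2, -⟩ := hr.inv_T q_ne γ
  have hunit : IsUnit (TT γ) := ⟨⟨TT γ, u, hu1, hu2⟩, rfl⟩
  refine ⟨?_, ?_, ⟨st.ee, ?_⟩, ?_⟩
  · intro σ w hw
    exact TT_eq σ w ((reduced_iff w σ).1 hw)
  · rw [hT]; exact hunit
  · intro i hi
    rw [← TT_adj ⟨hi.1, hi.2.1⟩]
    exact ⟨st.el i hi, st.er i hi⟩
  · intro x
    unfold X
    rw [hT]
    refine st.central hr q_ne q_add_ne (fun F k hF => sum_pow_ne F k hF) ?_ g hγ1 hγ2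
      (Ring.mul_inverse_cancel _ hunit) x
    have h1 := adjoin_gen (nn μ)
    rw [← h1]
    congr 1
    ext y
    constructor
    · rintro ⟨i, h1, h2, rfl⟩
      exact ⟨i, h1, h2, (TT_adj ⟨h1, h2⟩).symm⟩
    · rintro ⟨i, h1, h2, rfl⟩
      exact ⟨i, h1, h2, TT_adj ⟨h1, h2⟩⟩

end Pool.Agent.Results.MP_613bd6_al.Central
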